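import Pool.Agent.Helper41.TF.MAT
import Pool.Agent.Helper48.TF.Defs3

/-!
# TF, part MPI (MP_097e5c_al): matrices over rings with `[x, y, z] = 0`
-/

set_option autoImplicit false

namespace Pool.TF48.H81

open Pool.TF48 Pool.TF48.H41

/-! ### the coefficient -/

/-- the word of a permutation -/
def wd {d : ℕ} (σ : Equiv.Perm (Fin (d + 1))) : FreeMonoid ℕ :=
  FreeMonoid.ofList (List.ofFn (fun i => ((σ i : Fin (d + 1)) : ℕ)))

theorem coeff_fmi_mul {d : ℕ} (a : Equiv.Perm (Fin (d + 1)) → ℤ) (ha : a 1 = 1) (g : FA ℕ)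
    (w : FreeMonoid ℕ) : (fmi a * g).coeff (wd (1 : Equiv.Perm (Fin (d + 1))) * w) = g.coeff w := by
  classical
  unfold fmi
  rw [Finset.sum_mul, MonoidAlgebra.coeff_sum, Finsupp.finsetSum_apply,
    Fintype.sum_eq_single (1 : Equiv.Perm (Fin (d + 1)))]
  · rw [ha]
    have h := MonoidAlgebra.coeff_single_mul_eq_mul_coeff (R := ℤ) (x := g) (r := 1)
      (m := wd (1 : Equiv.Perm (Fin (d + 1)))) (m₁ := wd (1 : Equiv.Perm (Fin (d + 1))) * w) w
      (fun m' _ => ⟨fun h => mul_left_cancel h, fun h => by rw [h]⟩)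
    rw [one_mul] at h
    exact h
  · intro σ hσ
    refine MonoidAlgebra.coeff_single_mul_of_forall_mul_ne _ _ fun v hv => hσ ?_
    have h1 := congrArg FreeMonoid.toList hv
    rw [FreeMonoid.toList_mul, FreeMonoid.toList_mul] at h1
    have h2 := (List.append_inj h1 (by simp [wd])).1
    have h3 := List.ofFn_injective (show List.ofFn (fun i => ((σ i : Fin (d + 1)) : ℕ)) =
      List.ofFn (fun i => (((1 : Equiv.Perm (Fin (d + 1))) i : Fin (d + 1)) : ℕ)) from h2)
    ext i
    exact congrFun h3 i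

theorem coeff_fmi_mul_one {d : ℕ} (a : Equiv.Perm (Fin (d + 1)) → ℤ) (g : FA ℕ) :
    (fmi a * g).coeff 1 = 0 := by
  classical
  unfold fmi
  rw [Finset.sum_mul, MonoidAlgebra.coeff_sum, Finsupp.finsetSum_apply]
  refine Finset.sum_eq_zero fun σ _ => ?_
  refine MonoidAlgebra.coeff_single_mul_of_forall_mul_ne _ _ fun v hv => ?_
  have h1 := congrArg (fun w => w.toList.length) hv
  simp at h1

theorem coeff_pow {d : ℕ} (a : Equiv.Perm (Fin (d + 1)) → ℤ) (ha : a 1 = 1) (k : ℕ) :
    (fmi a ^ k).coeff ((wd (1 : Equiv.Perm (Fin (d + 1)))) ^ k) = 1 := by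
  induction k with
  | zero =>
    rw [pow_zero, pow_zero]
    simp [MonoidAlgebra.one_def]
  | succ k ih => rw [pow_succ', pow_succ', coeff_fmi_mul a ha, ih]

theorem ev_fmi {d : ℕ} {R : Type} [Ring R] (a : Equiv.Perm (Fin (d + 1)) → ℤ) (r : ℕ → R) :
    ev r (fmi a) = ((∑ σ, a σ • (List.ofFn (fun i => r ((σ i : Fin (d + 1)) : ℕ))).prod : R) :
      Unitization ℤ R) := by
  unfold fmi ev
  have h := map_sum (Unitization.inrHom ℤ ℤ R) (fun σ : Equiv.Perm (Fin (d + 1)) =>
      a σ • (List.ofFn (fun i => r ((σ i : Fin (d + 1)) : ℕ))).prod) Finset.univ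
  refine Eq.trans ?_ h.symm
  rw [map_sum]
  apply Finset.sum_congr rfl
  intro σ _
  rw [lft_single, List.map_ofFn]
  have h2 := mon_coe d (fun i => r ((σ i : Fin (d + 1)) : ℕ))
  have h3 := mon_prod d (fun i => r ((σ i : Fin (d + 1)) : ℕ))
  refine Eq.trans (congrArg (fun t => a σ • t) h2) ?_
  rw [h3]
  exact (map_smul (Unitization.inrHom ℤ ℤ R) (a σ) _).symm

theorem coe_pow {R : Type} [Ring R] (M : R) (k : ℕ) :
    (M : Unitization ℤ R) ^ (k + 1) = ((M ^ (k + 1) : R) : Unitization ℤ R) := by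
  induction k with
  | zero => rw [zero_add, pow_one, pow_one]
  | succ k ih => rw [pow_succ, ih, pow_succ M (k + 1), Unitization.inr_mul]

/-! ### commuting elements -/

open scoped IsMulCommutative in
theorem exists_hom {Q ι : Type} [Ring Q] (e : ι → Q) (h : ∀ i j, e i * e j = e j * e i) :
    ∃ φ : MvPolynomial ι ℤ →+* Q, ∀ i, φ (MvPolynomial.X i) = e i := by
  have hc : ∀ x ∈ Set.range e, ∀ y ∈ Set.range e, x * y = y * x := by
    rintro _ ⟨i, rfl⟩ _ ⟨j, rfl⟩; exact h i j
  have := Subring.isMulCommutative_closure hc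
  refine ⟨(Subring.closure (Set.range e)).subtype.comp
    (MvPolynomial.eval₂Hom (Int.castRingHom (Subring.closure (Set.range e)))
      (fun i => ⟨e i, Subring.subset_closure ⟨i, rfl⟩⟩)), fun i => ?_⟩
  rw [RingHom.comp_apply, MvPolynomial.eval₂Hom_X']
  rfl

/-! ### the commutator ideal -/

section

variable {S : Type} [Ring S] (hS : ∀ x y z : S, (x * y - y * x) * z = z * (x * y - y * x))

include hS in
theorem cc (x y z : S) : (x * y - y * x) * (y * z - z * y) = 0 := by
  have e : (x*y - y*x)*(y*z - z*y) = ((x*y*y - y*(x*y))*z - z*(x*y*y - y*(x*y))) +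
      (z*(x*y-y*x) - (x*y-y*x)*z)*y := by noncomm_ring
  rw [e, hS (x*y) y z, hS x y z]
  simp

/-- commutator as an element of the centre -/
def cm (x y : S) : Subring.center S :=
  ⟨x * y - y * x, Subring.mem_center_iff.mpr (fun z => (hS x y z).symm)⟩

theorem cm_self (x : S) : cm hS x x = 0 := Subtype.ext (sub_self _)

theorem cm_neg (x y : S) : cm hS x y = - cm hS y x :=
  Subtype.ext (by simp [cm])

theorem cm_mul (x y z : S) : cm hS x y * cm hS y z = 0 := Subtype.ext (cc hS x y z)

variable {ι : Type} [Fintype ι] (e : ι → S)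

theorem prod_cm {k : ℕ} (hk : Fintype.card ι < 2 * k) (a b : Fin k → ι) :
    ∏ m, cm hS (e (a m)) (e (b m)) = 0 := by
  classical
  by_contra hne
  have h1 : ∀ m, a m ≠ b m := by
    intro m hm
    apply hne
    refine Finset.prod_eq_zero (Finset.mem_univ m) ?_
    rw [hm, cm_self]
  have h2 : ∀ m m', m ≠ m' →
      cm hS (e (a m)) (e (b m)) * cm hS (e (a m')) (e (b m')) ≠ 0 := by
    intro m m' hmm h0
    apply hne
    rw [← Finset.mul_prod_erase Finset.univ _ (Finset.mem_univ m),
      ← Finset.mul_prod_erase (Finset.univ.erase m) _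
        (Finset.mem_erase.mpr ⟨hmm.symm, Finset.mem_univ m'⟩), ← mul_assoc, h0, zero_mul]
  have haa : ∀ m m', m ≠ m' → a m ≠ a m' := by
    intro m m' hmm h
    apply h2 m m' hmm
    rw [h, cm_neg hS (e (a m')) (e (b m)), neg_mul, cm_mul, neg_zero]
  have hbb : ∀ m m', m ≠ m' → b m ≠ b m' := by
    intro m m' hmm h
    apply h2 m m' hmm
    rw [h, cm_neg hS (e (a m')) (e (b m')), mul_neg, cm_mul, neg_zero]
  have hba : ∀ m m', m ≠ m' → b m ≠ a m' := by
    intro m m' hmm h
    apply h2 m m' hmm
    rw [h, cm_mul]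
  have hinj : Function.Injective (Sum.elim a b) := by
    intro x y hxy
    rcases x with m | m <;> rcases y with m' | m' <;> simp only [Sum.elim_inl, Sum.elim_inr] at hxy
    · by_contra hc
      exact haa m m' (fun h => hc (by rw [h])) hxy
    · exfalso
      by_cases hmm : m = m'
      · subst hmm; exact h1 m hxy
      · exact hba m' m (Ne.symm hmm) hxy.symm
    · exfalso
      by_cases hmm : m = m'
      · subst hmm; exact h1 m hxy.symm
      · exact hba m m' hmm hxy
    · by_contra hc
      exact hbb m m' (fun h => hc (by rw [h])) hxy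
  have h3 := Fintype.card_le_of_injective _ hinj
  rw [Fintype.card_sum, Fintype.card_fin] at h3
  omega

/-- the ideal of the centre generated by the commutators -/
def Ic : Ideal (Subring.center S) :=
  Ideal.span (Set.range (fun ij : ι × ι => cm hS (e ij.1) (e ij.2)))

theorem Ic_pow {k : ℕ} (hk : Fintype.card ι < 2 * k) : Ic hS e ^ k = ⊥ := by
  unfold Ic Ideal.span
  rw [Submodule.span_pow, Submodule.span_eq_bot]
  intro x hx
  obtain ⟨f, rfl⟩ := Set.mem_pow.mp hx
  rw [List.prod_ofFn]
  choose g hg using fun i => (f i).2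
  have : ∀ i, ((f i : Subring.center S)) = cm hS (e (g i).1) (e (g i).2) := fun i => (hg i).symm
  simp only [this]
  exact prod_cm hS e hk _ _

end

theorem mul_mem_smul {S : Type} [Ring S] (A B : Ideal (Subring.center S)) {a b : S}
    (ha : a ∈ A • (⊤ : Submodule (Subring.center S) S))
    (hb : b ∈ B • (⊤ : Submodule (Subring.center S) S)) :
    a * b ∈ (A * B) • (⊤ : Submodule (Subring.center S) S) := by
  refine Submodule.smul_induction_on ha (fun r hr n _ => ?_)
    (fun x y hx hy => by rw [add_mul]; exact add_mem hx hy)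
  refine Submodule.smul_induction_on hb (fun s hs m _ => ?_)
    (fun x y hx hy => by rw [mul_add]; exact add_mem hx hy)
  have h1 : (r • n) * (s • m) = (r * s) • (n * m) := by
    have h2 := Subring.mem_center_iff.mp s.2 n
    rw [Subring.smul_def, Subring.smul_def, Subring.smul_def]
    push_cast
    simp only [smul_eq_mul]
    calc (r : S) * n * ((s : S) * m) = r * (n * s) * m := by noncomm_ring
      _ = _ := by rw [h2]; noncomm_ring
  rw [h1]
  exact Submodule.smul_mem_smul (Ideal.mul_mem_mul hr hs) trivial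

/-- the two-sided ideal `A S` of `S` -/
def Jd {S : Type} [Ring S] (A : Ideal (Subring.center S)) : Ideal S where
  carrier := ((A • (⊤ : Submodule (Subring.center S) S) : Submodule (Subring.center S) S) : Set S)
  add_mem' := fun ha hb => add_mem ha hb
  zero_mem' := zero_mem (A • (⊤ : Submodule (Subring.center S) S))
  smul_mem' := by
    intro c x hx
    have := mul_mem_smul (⊤ : Ideal (Subring.center S)) A (a := c) (b := x)
      (by rw [Submodule.top_smul]; trivial) hx
    rwa [Ideal.top_mul] at this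

instance {S : Type} [Ring S] (A : Ideal (Subring.center S)) : (Jd A).IsTwoSided where
  mul_mem_of_left := by
    intro x b hx
    have := mul_mem_smul A (⊤ : Ideal (Subring.center S)) (a := x) (b := b)
      hx (by rw [Submodule.top_smul]; trivial)
    rwa [Ideal.mul_top] at this

theorem mpi : S_MPI := by
  intro S _ hS n
  classical
  let a : Equiv.Perm (Fin (n * n + 1)) → ℤ := fun σ => ((Equiv.Perm.sign σ : ℤˣ) : ℤ)
  have ha : a 1 = 1 := by simp [a]
  let ι : Type := Fin (n * n + 1) × Fin n × Fin n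
  let k : ℕ := Fintype.card ι
  refine ⟨fmi a ^ (k + 1), ?_, ⟨wd (1 : Equiv.Perm (Fin (n * n + 1))) ^ (k + 1), coeff_pow a ha _⟩,
    fun r => ?_⟩
  · rw [pow_succ']; exact coeff_fmi_mul_one a _
  rw [map_pow, ev_fmi]
  set M : Matrix (Fin n) (Fin n) S :=
    ∑ σ, a σ • (List.ofFn (fun i => r ((σ i : Fin (n * n + 1)) : ℕ))).prod with hM
  rw [coe_pow]
  suffices h : M ^ (k + 1) = 0 by rw [h]; exact Unitization.inr_zero ℤ
  let e : ι → S := fun i => r (i.1 : ℕ) i.2.1 i.2.2
  let A : Ideal (Subring.center S) := Ic hS e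
  -- entries of `M`
  have hent : ∀ p q, M p q ∈ A • (⊤ : Submodule (Subring.center S) S) := by
    let π : S →+* S ⧸ Jd A := Ideal.Quotient.mk (Jd A)
    have hcomm : ∀ i j, π (e i) * π (e j) = π (e j) * π (e i) := by
      intro i j
      rw [← map_mul, ← map_mul]
      refine (Ideal.Quotient.eq).mpr ?_
      change e i * e j - e j * e i ∈ A • (⊤ : Submodule (Subring.center S) S)
      have h1 : e i * e j - e j * e i = (cm hS (e i) (e j)) • (1 : S) := by
        rw [Subring.smul_def, smul_eq_mul, mul_one]; rfl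
      rw [h1]
      exact Submodule.smul_mem_smul (Ideal.subset_span ⟨(i, j), rfl⟩) trivial
    obtain ⟨φ, hφ⟩ := exists_hom (fun i => π (e i)) hcomm
    let G : Fin (n * n + 1) → Matrix (Fin n) (Fin n) (MvPolynomial ι ℤ) :=
      fun l => fun p q => MvPolynomial.X (l, p, q)
    have h1 := standard (MvPolynomial ι ℤ) n G
    have h2 := congrArg φ.mapMatrix h1
    have hG : ∀ l, φ.mapMatrix (G l) = π.mapMatrix (r (l : ℕ)) := by
      intro l
      ext p q
      exact hφ (l, p, q)
    have h3 : φ.mapMatrix (∑ σ : Equiv.Perm (Fin (n * n + 1)), ((Equiv.Perm.sign σ : ℤˣ) : ℤ) •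
      (List.ofFn (fun i => G (σ i))).prod) = π.mapMatrix M := by
      rw [hM, map_sum, map_sum]
      refine Finset.sum_congr rfl fun σ _ => ?_
      rw [map_zsmul, map_zsmul, map_list_prod, map_list_prod, List.map_ofFn, List.map_ofFn]
      have : (φ.mapMatrix ∘ fun i => G (σ i)) =
          (π.mapMatrix ∘ fun i => r ((σ i : Fin (n * n + 1)) : ℕ)) := funext fun i => hG (σ i)
      rw [this]
    rw [h3, map_zero] at h2
    intro p q
    have h4 : π (M p q) = 0 := congrFun (congrFun h2 p) q
    exact Ideal.Quotient.eq_zero_iff_mem.mp h4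
  have hpow : ∀ m p q, (M ^ m) p q ∈ (A ^ m) • (⊤ : Submodule (Subring.center S) S) := by
    intro m
    induction m with
    | zero =>
      intro p q
      rw [pow_zero A, Ideal.one_eq_top, Submodule.top_smul]; trivial
    | succ m ih =>
      intro p q
      rw [pow_succ, pow_succ, Matrix.mul_apply]
      exact sum_mem fun t _ => mul_mem_smul _ _ (ih p t) (hent t q)
  ext p q
  have h5 := hpow (k + 1) p q
  have h6 : A ^ (k + 1) = ⊥ := Ic_pow hS e (show Fintype.card ι < 2 * (k + 1) by
    change k < 2 * (k + 1); omega)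
  rw [h6, Submodule.bot_smul] at h5
  exact (Submodule.mem_bot _).mp h5

end Pool.TF48.H81
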